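import Pool.Agent.Q184.GR.MainRa

set_option autoImplicit false

/-! Project GR of helper200, job MAINR. -/

namespace Pool.Agent.Q184.GR

open Finset Pool.Agent Pool.Agent.H200P Pool.Agent.H200W Pool.Agent.H200G Pool.Agent.H932R3
open Pool.Agent.Q195.PK

/-- all nonzero values are repeated -/
theorem exp_of_rep (hRU : RepUn) (hUG : UnGr) (hEP : ExpPure) {n d : ℕ} {w : Fin n → ℕ}
    (h : ∀ i, w i ≠ 0 → 2 ^ 29 ≤ (univ.filter fun j => w j = w i).card) : GenExp d w := by
  have h1 : Un w univ := hRU fun i _ hi => h i hi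
  have h2 : Gr w univ (univ.sup w + 1) := by
    apply hUG h1
    intro i hi
    have h3 : w i ≤ univ.sup w := Finset.le_sup hi
    exact lt_of_le_of_lt h3 ((Nat.lt_succ_self _).trans Nat.lt_two_pow_self)
  intro K _ _ P hPi
  exact hEP h2 hPi

/-- the system of a subfamily is zero -/
theorem exp_of_sub {K : Type} [Field K] {n : ℕ} {w w' : Fin n → ℕ} (hw : ∀ i, w' i ≤ w i)
    (P : Fin n → Fin 2 → K) (d : ℕ) (h : ExpDim K w' P d) {δ : ℝ} (hδd : 20 ≤ δ * d) (hd1 : (1 : ℝ) ≤ d)
    (h2 : (1 + δ / 2) * (d : ℝ) ^ 2 ≤ ∑ i, (w' i : ℝ) ^ 2) : ExpDim K w P d := by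
  apply expDim_mono hw P d h
  have hreal : ((2 * (d + 2).choose 2 : ℕ) : ℝ) ≤ ((2 * ∑ i, (w' i + 1).choose 2 : ℕ) : ℝ) := by
    have e1 : ((2 * (d + 2).choose 2 : ℕ) : ℝ) = ((d : ℝ) + 1) * (d + 2) := by
      have := two_choose (d + 1)
      rw [show d + 1 + 1 = d + 2 by ring] at this
      rw [this]
      push_cast
      ring
    have e2 : ((2 * ∑ i, (w' i + 1).choose 2 : ℕ) : ℝ) = ∑ i, (w' i : ℝ) * (w' i + 1) := by
      rw [Finset.mul_sum, Nat.cast_sum]
      apply Finset.sum_congr rfl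
      intro i _
      exact two_choose (w' i)
    rw [e1, e2]
    have e3 : ∑ i, (w' i : ℝ) ^ 2 ≤ ∑ i, (w' i : ℝ) * (w' i + 1) := by
      apply Finset.sum_le_sum
      intro i _
      have : (0 : ℝ) ≤ w' i := Nat.cast_nonneg _
      nlinarith
    nlinarith
  have hnat : 2 * (d + 2).choose 2 ≤ 2 * ∑ i, (w' i + 1).choose 2 := by exact_mod_cast hreal
  omega

theorem mainR : S_MainR := by
  classical
  intro hRU hUG hEP hPG ε hε
  set δ : ℝ := min ε 1 with hδ
  have hδ0 : 0 < δ := lt_min hε one_pos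
  have hδ1 : δ ≤ 1 := min_le_right _ _
  have hδε : δ ≤ ε := min_le_left _ _
  obtain ⟨c', hc', hc'β, hmain⟩ := packOrRep (δ / 4) (min (δ / 20) (1 / 2)) (by positivity) (by linarith)
    (lt_min (by positivity) (by norm_num)) hRU
  have hc'δ : c' ≤ δ / 20 := hc'β.trans (min_le_left _ _)
  have hc'2 : c' ≤ 1 / 2 := hc'β.trans (min_le_right _ _)
  -- the direct case
  have hgen : ∀ {n d : ℕ} {μ : ℝ} (w : Fin n → ℕ), (∀ i, (w i : ℝ) ≤ c' * d) →
    (∀ i, w i ≠ 0 → (w i : ℝ) ≤ μ → 2 ^ 29 ≤ (univ.filter fun j => w j = w i).card) →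
    ∑ i ∈ univ.filter (fun i => c' * μ < (w i : ℝ)), (w i : ℝ) ^ 2 ≤ (1 - δ / 4) * (d : ℝ) ^ 2 → GenExp d w := by
    intro n d μ w h1 h2 h3 K _ _ P hPi
    rcases hmain w h1 h2 h3 with h4 | h4
    · exact exp_of_rep hRU hUG hEP h4 hPi
    · exact hPG h4 hPi
  set c : ℝ := c' ^ 2 with hc
  have hc0 : 0 < c := by positivity
  have hcc' : c ≤ c' := by rw [hc]; nlinarith
  refine ⟨c, hc0, ?_⟩
  intro n d μ w hw hrep hcase K _ _ P hPi
  by_cases hall : ∀ i, w i = 0
  · exact exp_of_rep hRU hUG hEP (fun i hi => absurd (hall i) hi) hPi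
  have hd2 : (0 : ℝ) ≤ (d : ℝ) ^ 2 := by positivity
  have hcd : 1 ≤ c * d := by
    push Not at hall
    obtain ⟨i0, hi0⟩ := hall
    have : (1 : ℝ) ≤ w i0 := by exact_mod_cast Nat.pos_of_ne_zero hi0
    exact this.trans (hw i0)
  have hd0 : (0 : ℝ) < d := by
    by_contra h
    push Not at h
    have : c * (d : ℝ) ≤ 0 := mul_nonpos_of_nonneg_of_nonpos hc0.le h
    linarith
  have hd20 : 20 ≤ δ * d := by
    have : c * d ≤ δ / 20 * d := mul_le_mul_of_nonneg_right (hcc'.trans hc'δ) hd0.le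
    linarith
  have hd1 : (1 : ℝ) ≤ d := by nlinarith
  have hwc' : ∀ i, (w i : ℝ) ≤ c' * d := fun i => (hw i).trans
    (mul_le_mul_of_nonneg_right hcc' hd0.le)
  have hcμ : c' * (c' * μ) = c * μ := by rw [hc]; ring
  -- values up to `c' μ` are repeated
  have hrep' : ∀ i, w i ≠ 0 → (w i : ℝ) ≤ c' * μ → (w i : ℝ) ≤ μ := by
    intro i _ h2
    have h3 : (0 : ℝ) ≤ w i := Nat.cast_nonneg _
    have h4 : 0 ≤ μ := by
      by_contra h
      push Not at h
      have : c' * μ < 0 := mul_neg_of_pos_of_neg hc' h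
      linarith
    have h5 : c' * μ ≤ 1 * μ := mul_le_mul_of_nonneg_right (by linarith) h4
    linarith
  have hdirect : ∑ i ∈ univ.filter (fun i => c * μ < (w i : ℝ)), (w i : ℝ) ^ 2 ≤
      (1 - δ / 4) * (d : ℝ) ^ 2 → ExpDim K w P d := by
    intro h
    refine hgen (μ := c' * μ) w hwc' (fun i h1 h2 => hrep i h1 (hrep' i h1 h2)) ?_ hPi
    rw [hcμ]
    exact h
  rcases hcase with h | h
  · apply hdirect
    refine h.trans (mul_le_mul_of_nonneg_right ?_ hd2)
    linarith
  by_cases hbig : ∑ i ∈ univ.filter (fun i => c * μ < (w i : ℝ)), (w i : ℝ) ^ 2 ≤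
      (1 - δ / 4) * (d : ℝ) ^ 2
  · exact hdirect hbig
  push Not at hbig
  have hμ0 : 0 ≤ μ := by
    by_contra h'
    push Not at h'
    have h1 : univ.filter (fun i => (w i : ℝ) ≤ c * μ) = ∅ := by
      apply Finset.filter_false_of_mem
      intro i _ h2
      have : c * μ < 0 := mul_neg_of_pos_of_neg hc0 h'
      have : (0 : ℝ) ≤ w i := Nat.cast_nonneg _
      linarith
    rw [h1, Finset.sum_empty] at h
    have : 0 < ε * (d : ℝ) ^ 2 := by positivity
    linarith
  have hcμ' : c * μ ≤ c' * μ := mul_le_mul_of_nonneg_right hcc' hμ0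
  have hδε2 : δ * (d : ℝ) ^ 2 ≤ ε * (d : ℝ) ^ 2 := mul_le_mul_of_nonneg_right hδε hd2
  -- the sum over the small ones
  by_cases hT : (1 + δ / 2) * (d : ℝ) ^ 2 ≤ ∑ i ∈ univ.filter (fun i => (w i : ℝ) ≤ c' * μ), (w i : ℝ) ^ 2
  · set w' : Fin n → ℕ := fun i => if (w i : ℝ) ≤ c' * μ then w i else 0 with hw'
    have hw'le : ∀ i, w' i ≤ w i := by
      intro i
      rw [hw']
      by_cases hi : (w i : ℝ) ≤ c' * μ
      · simp only [hi, if_true]; exact le_rfl
      · simp only [hi, if_false]; exact Nat.zero_le _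
    have hw'rep : ∀ i, w' i ≠ 0 → 2 ^ 29 ≤ (univ.filter fun j => w' j = w' i).card := by
      intro i hi
      have hi1 : (w i : ℝ) ≤ c' * μ := by
        by_contra h1
        apply hi
        rw [hw']
        simp only [h1, if_false]
      have hi2 : w' i = w i := by
        rw [hw']
        simp only [hi1, if_true]
      rw [hi2] at hi ⊢
      refine (hrep i hi (hrep' i hi hi1)).trans (Finset.card_le_card ?_)
      intro j hj
      rw [Finset.mem_filter] at hj ⊢
      refine ⟨hj.1, ?_⟩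
      have h3 : (w j : ℝ) ≤ c' * μ := by rw [hj.2]; exact hi1
      rw [hw']
      simp only [h3, if_true]
      exact hj.2
    refine exp_of_sub hw'le P d (exp_of_rep hRU hUG hEP hw'rep hPi) hd20 hd1 (hT.trans ?_)
    rw [Finset.sum_filter]
    refine Finset.sum_le_sum fun i _ => ?_
    rw [hw']
    by_cases hi : (w i : ℝ) ≤ c' * μ
    · simp only [hi, if_true]; exact le_rfl
    · simp only [hi, if_false]; positivity
  push Not at hT
  set S0 : Finset (Fin n) := univ.filter (fun i => c * μ < (w i : ℝ) ∧ (w i : ℝ) ≤ c' * μ) with hS0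
  set S1 : Finset (Fin n) := univ.filter (fun i => c' * μ < (w i : ℝ)) with hS1
  have hsplit1 : ∑ i ∈ univ.filter (fun i => (w i : ℝ) ≤ c' * μ), (w i : ℝ) ^ 2 =
      ∑ i ∈ univ.filter (fun i => (w i : ℝ) ≤ c * μ), (w i : ℝ) ^ 2 + ∑ i ∈ S0, (w i : ℝ) ^ 2 := by
    rw [← Finset.sum_union]
    · apply Finset.sum_congr _ (fun _ _ => rfl)
      ext i
      simp only [hS0, Finset.mem_union, Finset.mem_filter, Finset.mem_univ, true_and]
      constructor
      · intro h1
        rcases le_or_gt (w i : ℝ) (c * μ) with h2 | h2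
        · exact Or.inl h2
        · exact Or.inr ⟨h2, h1⟩
      · rintro (h1 | h1)
        · exact h1.trans hcμ'
        · exact h1.2
    · rw [Finset.disjoint_left]
      intro i hi hi'
      rw [Finset.mem_filter] at hi
      rw [hS0, Finset.mem_filter] at hi'
      linarith [hi.2, hi'.2.1]
  have hsplit2 : ∑ i ∈ univ.filter (fun i => c * μ < (w i : ℝ)), (w i : ℝ) ^ 2 =
      ∑ i ∈ S0, (w i : ℝ) ^ 2 + ∑ i ∈ S1, (w i : ℝ) ^ 2 := by
    rw [← Finset.sum_union]
    · apply Finset.sum_congr _ (fun _ _ => rfl)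
      ext i
      simp only [hS0, hS1, Finset.mem_union, Finset.mem_filter, Finset.mem_univ, true_and]
      constructor
      · intro h1
        rcases le_or_gt (w i : ℝ) (c' * μ) with h2 | h2
        · exact Or.inl ⟨h1, h2⟩
        · exact Or.inr h2
      · rintro (h1 | h1)
        · exact h1.1
        · exact lt_of_le_of_lt hcμ' h1
    · rw [Finset.disjoint_left]
      intro i hi hi'
      rw [hS0, Finset.mem_filter] at hi
      rw [hS1, Finset.mem_filter] at hi'
      linarith [hi.2.2, hi'.2]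
  obtain ⟨s0, hs0⟩ : ∃ s0 : ℝ, s0 = ∑ i ∈ S0, (w i : ℝ) ^ 2 := ⟨_, rfl⟩
  rw [← hs0] at hsplit1 hsplit2
  have hs0le : s0 ≤ (1 - δ / 2) * (d : ℝ) ^ 2 := by
    rw [hsplit1] at hT
    nlinarith
  have ht : ∀ i, (w i : ℝ) ^ 2 ≤ (c * d) ^ 2 := fun i =>
    pow_le_pow_left₀ (Nat.cast_nonneg _) (hw i) 2
  obtain ⟨S', hS'S, hS'1, hS'2⟩ := remove_points (fun i => (w i : ℝ) ^ 2) ((c * d) ^ 2)
    ((1 - δ / 4) * (d : ℝ) ^ 2 - s0) (by
      have : 0 ≤ δ * (d : ℝ) ^ 2 := by positivity
      nlinarith) ht S1 (by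
      have : 0 ≤ (c * (d : ℝ)) ^ 2 := by positivity
      linarith)
  set w' : Fin n → ℕ := fun i => if i ∈ S1 \ S' then 0 else w i with hw'
  have hw'le : ∀ i, w' i ≤ w i := by
    intro i
    rw [hw']
    by_cases hi : i ∈ S1 \ S'
    · simp only [hi, if_true]; exact Nat.zero_le _
    · simp only [hi, if_false]; exact le_rfl
  have hw'ler : ∀ i, (w' i : ℝ) ≤ w i := fun i => by exact_mod_cast hw'le i
  have hw'eq : ∀ i, i ∉ S1 \ S' → w' i = w i := by
    intro i hi
    rw [hw']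
    simp only [hi, if_false]
  have hw'zero : ∀ i, i ∈ S1 \ S' → w' i = 0 := by
    intro i hi
    rw [hw']
    simp only [hi, if_true]
  have hgen' : ExpDim K w' P d := by
    refine hgen (μ := c' * μ) w' (fun i => (hw'ler i).trans (hwc' i)) ?_ ?_ hPi
    · intro i hi0 hi1
      have hi2 : i ∉ S1 \ S' := fun h' => hi0 (hw'zero i h')
      have hi3 := hw'eq i hi2
      rw [hi3] at hi0 hi1 ⊢
      refine (hrep i hi0 (hrep' i hi0 hi1)).trans (Finset.card_le_card ?_)
      intro j hj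
      rw [Finset.mem_filter] at hj ⊢
      refine ⟨hj.1, ?_⟩
      rw [hw'eq j ?_]
      · exact hj.2
      · intro h'
        rw [Finset.mem_sdiff, hS1, Finset.mem_filter] at h'
        have h3 := h'.1.2
        rw [hj.2] at h3
        linarith
    · rw [hcμ]
      have h1 : ∑ i ∈ univ.filter (fun i => c * μ < (w' i : ℝ)), (w' i : ℝ) ^ 2 ≤
          ∑ i ∈ S0 ∪ S', (w i : ℝ) ^ 2 := by
        have h2 : ∑ i ∈ univ.filter (fun i => c * μ < (w' i : ℝ)), (w' i : ℝ) ^ 2 ≤
            ∑ i ∈ univ.filter (fun i => c * μ < (w' i : ℝ)), (w i : ℝ) ^ 2 :=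
          Finset.sum_le_sum fun i _ => pow_le_pow_left₀ (Nat.cast_nonneg _) (hw'ler i) 2
        refine h2.trans ?_
        apply Finset.sum_le_sum_of_subset_of_nonneg
        · intro i hi
          rw [Finset.mem_filter] at hi
          have h3 : i ∉ S1 \ S' := by
            intro h4
            rw [hw'zero i h4, Nat.cast_zero] at hi
            have : 0 ≤ c * μ := mul_nonneg hc0.le hμ0
            linarith [hi.2]
          rw [hw'eq i h3] at hi
          rw [Finset.mem_union]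
          rcases le_or_gt (w i : ℝ) (c' * μ) with h4 | h4
          · left
            rw [hS0, Finset.mem_filter]
            exact ⟨Finset.mem_univ _, hi.2, h4⟩
          · right
            by_contra h5
            apply h3
            rw [Finset.mem_sdiff, hS1, Finset.mem_filter]
            exact ⟨⟨Finset.mem_univ _, h4⟩, h5⟩
        · intro i _ _
          positivity
      refine h1.trans ?_
      have h2 : ∑ i ∈ S0 ∪ S', (w i : ℝ) ^ 2 ≤ ∑ i ∈ S0, (w i : ℝ) ^ 2 + ∑ i ∈ S', (w i : ℝ) ^ 2 := by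
        rw [← Finset.sum_union_inter]
        have : 0 ≤ ∑ i ∈ S0 ∩ S', (w i : ℝ) ^ 2 := Finset.sum_nonneg fun i _ => by positivity
        linarith
      rw [← hs0] at h2
      linarith
  have hlow : (1 + δ / 2) * (d : ℝ) ^ 2 ≤ ∑ i, (w' i : ℝ) ^ 2 := by
    have hdis : Disjoint (univ.filter (fun i => (w i : ℝ) ≤ c' * μ)) S' := by
      rw [Finset.disjoint_left]
      intro i hi hi'
      have h2 := hS'S hi'
      rw [hS1, Finset.mem_filter] at h2
      rw [Finset.mem_filter] at hi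
      linarith [hi.2, h2.2]
    have h1 : ∑ i ∈ univ.filter (fun i => (w i : ℝ) ≤ c' * μ), (w i : ℝ) ^ 2 +
        ∑ i ∈ S', (w i : ℝ) ^ 2 ≤ ∑ i, (w' i : ℝ) ^ 2 := by
      rw [← Finset.sum_union hdis]
      have h2 : ∑ i ∈ univ.filter (fun i => (w i : ℝ) ≤ c' * μ) ∪ S', (w i : ℝ) ^ 2 =
          ∑ i ∈ univ.filter (fun i => (w i : ℝ) ≤ c' * μ) ∪ S', (w' i : ℝ) ^ 2 := by
        apply Finset.sum_congr rfl
        intro i hi
        rw [hw'eq i]
        intro h4
        rw [Finset.mem_sdiff] at h4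
        rcases Finset.mem_union.mp hi with h5 | h5
        · have h6 := h4.1
          rw [hS1, Finset.mem_filter] at h6
          rw [Finset.mem_filter] at h5
          linarith [h5.2, h6.2]
        · exact h4.2 h5
      rw [h2]
      apply Finset.sum_le_sum_of_subset_of_nonneg (Finset.subset_univ _)
      intro i _ _
      positivity
    rw [hsplit1] at h1
    have h2 : (c * (d : ℝ)) ^ 2 ≤ δ / 20 * (d : ℝ) ^ 2 := by
      rw [mul_pow]
      apply mul_le_mul_of_nonneg_right _ hd2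
      have : c ^ 2 ≤ c := by
        have h5 : c ≤ 1 := by linarith
        nlinarith
      linarith
    nlinarith
  exact exp_of_sub hw'le P d hgen' hd20 hd1 hlow

end Pool.Agent.Q184.GR
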