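import Pool.Agent.H200G.Stm4

set_option autoImplicit false

/-! Project GR of helper200, job MAINR: the choice of the scale. -/

namespace Pool.Agent.Q184.GR

open Finset Pool.Agent Pool.Agent.H200P Pool.Agent.H200W Pool.Agent.H200G Pool.Agent.H932R3
open Pool.Agent.Q195.PK

theorem packOrRep (ε β : ℝ) (hε : 0 < ε) (hε1 : ε ≤ 1) (hβ : 0 < β) (hRU : RepUn) : ∃ c : ℝ, 0 < c ∧ c ≤ β ∧
    ∀ {n d : ℕ} {μ : ℝ} (w : Fin n → ℕ), (∀ i, (w i : ℝ) ≤ c * d) →
    (∀ i, w i ≠ 0 → (w i : ℝ) ≤ μ → 2 ^ 29 ≤ (univ.filter fun j => w j = w i).card) →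
    ∑ i ∈ univ.filter (fun i => c * μ < (w i : ℝ)), (w i : ℝ) ^ 2 ≤ (1 - ε) * (d : ℝ) ^ 2 →
    (∀ i, w i ≠ 0 → 2 ^ 29 ≤ (univ.filter fun j => w j = w i).card) ∨ PackG d w := by
  set C : ℝ := 2 ^ 27 / ε with hC
  have hC1 : 2 ^ 27 ≤ C := by
    rw [hC, le_div_iff₀ hε]
    nlinarith
  have hCε : C * ε = 2 ^ 27 := by
    rw [hC]; field_simp
  obtain ⟨K0, hK0⟩ := exists_nat_ge (8 * C / ε)
  obtain ⟨J, hJ⟩ := exists_nat_ge (8 * (1 + C) ^ 2 / ε)
  rw [div_le_iff₀ hε] at hK0 hJ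
  have hK1 : 1 ≤ K0 := by
    by_contra h
    have : K0 = 0 := by omega
    rw [this, Nat.cast_zero, zero_mul] at hK0
    linarith
  have hJ1 : 1 ≤ J := by
    by_contra h
    have : J = 0 := by omega
    rw [this, Nat.cast_zero, zero_mul] at hJ
    have : 0 < 8 * (1 + C) ^ 2 := by positivity
    linarith
  set T : ℝ := (K0 : ℝ) ^ J with hT
  have hK1r : (1 : ℝ) ≤ K0 := by exact_mod_cast hK1
  have hT1 : 1 ≤ T := one_le_pow₀ hK1r
  have hT0 : 0 < T := by linarith
  have hC0 : 0 < C := by linarith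
  set Q : ℝ := 2 ^ 40 * ((1 + C * T) ^ 2 * T ^ 3) with hQ
  have hCTp := mul_pos hC0 hT0
  have hCT1 : 1 ≤ 1 + C * T := by linarith
  have hT31 : 1 ≤ T ^ 3 := one_le_pow₀ hT1
  have hCT2 : 1 ≤ (1 + C * T) ^ 2 := one_le_pow₀ hCT1
  have hCT3 : C * T ≤ (1 + C * T) ^ 2 := by
    have h2 : 0 ≤ (C * T) ^ 2 := by positivity
    have h3 : (1 + C * T) ^ 2 = 1 + 2 * (C * T) + (C * T) ^ 2 := by ring
    linarith
  have hTCT : T ≤ C * T := by
    have h2 : 1 * T ≤ C * T := mul_le_mul_of_nonneg_right (by linarith) hT0.le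
    linarith
  have hQ0 : 0 < Q := by positivity
  set a : ℝ := min β (ε / Q) with ha
  have ha0 : 0 < a := lt_min hβ (by positivity)
  have haβ : a ≤ β := min_le_left _ _
  have haQ : a * Q ≤ ε := by
    have h1 : a ≤ ε / Q := min_le_right _ _
    rwa [le_div_iff₀ hQ0] at h1
  -- multiples of `a`
  have hmul : ∀ x : ℝ, x ≤ Q → a * x ≤ ε := by
    intro x hx
    exact (mul_le_mul_of_nonneg_left hx ha0.le).trans haQ
  have hQ1 : 2 ^ 40 * ((1 + C * T) ^ 2) ≤ Q := by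
    rw [hQ]
    have : (1 + C * T) ^ 2 * 1 ≤ (1 + C * T) ^ 2 * T ^ 3 := mul_le_mul_of_nonneg_left hT31 (by positivity)
    linarith
  have b1 : a * 2 ^ 33 ≤ ε := hmul _ (by linarith)
  have b2 : a * (2 ^ 33 * T) ≤ ε := hmul _ (by linarith)
  have b3 : a * (2 ^ 33 * ((1 + C * T) ^ 2 * T ^ 3)) ≤ ε := hmul _ (by
    rw [hQ]
    have : 0 ≤ (1 + C * T) ^ 2 * T ^ 3 := by positivity
    exact mul_le_mul_of_nonneg_right (by norm_num) this)
  have b4 : a * (128 * (C * T)) ≤ ε := hmul _ (by linarith)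
  have ha1 : a ≤ 1 := by linarith
  have haa : a ^ 2 ≤ a := by
    have h := mul_le_mul_of_nonneg_left ha1 ha0.le
    rw [mul_one] at h
    rw [sq]
    exact h
  refine ⟨a ^ 2, by positivity, haa.trans haβ, ?_⟩
  intro n d μ w hw hrep hsum
  by_cases hallrep : ∀ i, w i ≠ 0 → 2 ^ 29 ≤ (univ.filter fun j => w j = w i).card
  · exact Or.inl hallrep
  right
  have hne : ∃ i, w i ≠ 0 := by
    by_contra h
    push Not at h
    exact hallrep fun i hi => absurd (h i) hi
  obtain ⟨i0, hi0⟩ := hne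
  have hcd : 1 ≤ a ^ 2 * d := by
    have : (1 : ℝ) ≤ w i0 := by exact_mod_cast Nat.pos_of_ne_zero hi0
    exact this.trans (hw i0)
  have hd0 : (0 : ℝ) < d := by
    by_contra h
    push Not at h
    have : a ^ 2 * (d : ℝ) ≤ 0 := mul_nonpos_of_nonneg_of_nonpos (by positivity) h
    linarith
  have hd1 : 1 ≤ d := by
    have : d ≠ 0 := by
      rintro rfl
      simp at hd0
    omega
  have hμd : μ ≤ a ^ 2 * d := by
    by_contra h
    push Not at h
    apply hallrep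
    intro i hi
    exact hrep i hi ((hw i).trans h.le)
  have had : a ^ 2 * d ≤ a * T * d := by
    have : a ^ 2 ≤ a * T := by
      have h := mul_le_mul_of_nonneg_left hT1 ha0.le
      rw [mul_one] at h
      exact haa.trans h
    exact mul_le_mul_of_nonneg_right this hd0.le
  set ν0 : ℕ := max 1 ⌈a ^ 2 * μ⌉₊ with hν0
  set ν : ℕ → ℕ := fun j => K0 ^ j * ν0 with hν
  have hν01 : 1 ≤ ν0 := le_max_left _ _
  have hνc : a ^ 2 * μ ≤ ν0 := by
    have h1 : a ^ 2 * μ ≤ (⌈a ^ 2 * μ⌉₊ : ℝ) := Nat.le_ceil _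
    have h2 : ((⌈a ^ 2 * μ⌉₊ : ℕ) : ℝ) ≤ (ν0 : ℝ) := by exact_mod_cast le_max_right _ _
    linarith
  have hνm : Monotone ν := by
    intro i j hij
    exact Nat.mul_le_mul_right _ (Nat.pow_le_pow_right (by omega) hij)
  have hX : ∑ i ∈ univ.filter (fun i => a ^ 2 * μ < (w i : ℝ)), (w i : ℝ) ^ 2 ≤ (d : ℝ) ^ 2 := by
    refine hsum.trans ?_
    have : 0 ≤ ε * (d : ℝ) ^ 2 := by positivity
    linarith
  obtain ⟨j, hjJ, hband⟩ := exists_band w ν hνm J hJ1
    (univ.filter (fun i => a ^ 2 * μ < (w i : ℝ))) (by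
      intro i hi
      rw [Finset.mem_filter]
      refine ⟨Finset.mem_univ _, ?_⟩
      have h1 : ν 0 = ν0 := by rw [hν]; simp
      rw [h1] at hi
      have : (ν0 : ℝ) < w i := by exact_mod_cast hi
      linarith) _ hX
  have hνT : (ν j : ℝ) ≤ T * ν0 := by
    have h1 : (K0 : ℝ) ^ j ≤ T := pow_le_pow_right₀ hK1r hjJ.le
    rw [hν]
    push_cast
    exact mul_le_mul_of_nonneg_right h1 (by positivity)
  have hν1 : 1 ≤ ν j := by
    have : ν 0 ≤ ν j := hνm (Nat.zero_le _)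
    have h1 : ν 0 = ν0 := by rw [hν]; simp
    omega
  have hν1r : (1 : ℝ) ≤ ν j := by exact_mod_cast hν1
  have hdich : (ν j : ℝ) ≤ T ∨ (ν j : ℝ) ≤ μ := by
    by_cases h : a ^ 2 * μ ≤ 1
    · left
      have : ν0 = 1 := by
        rw [hν0]
        apply max_eq_left
        rw [Nat.ceil_le]
        exact_mod_cast h
      rw [this] at hνT
      simpa using hνT
    · right
      push Not at h
      have hμ0 : 0 < μ := by
        by_contra h'
        push Not at h'
        have : a ^ 2 * μ ≤ 0 := mul_nonpos_of_nonneg_of_nonpos (by positivity) h'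
        linarith
      have h1 : (ν0 : ℝ) ≤ 2 * (a ^ 2 * μ) := by
        have h2 : ((⌈a ^ 2 * μ⌉₊ : ℕ) : ℝ) < a ^ 2 * μ + 1 := Nat.ceil_lt_add_one (by positivity)
        rw [hν0, Nat.cast_max]
        apply max_le
        · push_cast; linarith
        · linarith
      have h3 : T * (ν0 : ℝ) ≤ T * (2 * (a ^ 2 * μ)) := mul_le_mul_of_nonneg_left h1 hT0.le
      have h4 : 2 * (a ^ 2 * T) ≤ 1 := by
        have h7 : a ^ 2 * T ≤ a * T := mul_le_mul_of_nonneg_right haa hT0.le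
        have h8 := mul_pos ha0 hT0
        have h9 : a * (2 ^ 33 * T) = 2 ^ 33 * (a * T) := by ring
        rw [h9] at b2
        linarith
      have h5 : 2 * (a ^ 2 * T) * μ ≤ 1 * μ := mul_le_mul_of_nonneg_right h4 hμ0.le
      have h6 : T * (2 * (a ^ 2 * μ)) = 2 * (a ^ 2 * T) * μ := by ring
      linarith
  have hνd : (ν j : ℝ) ≤ a * T * d := by
    rcases hdich with h | h
    · have h1 : 1 ≤ a * d := by
        have : a ^ 2 * d ≤ a * d := mul_le_mul_of_nonneg_right haa hd0.le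
        linarith
      have h2 : T * 1 ≤ T * (a * d) := mul_le_mul_of_nonneg_left h1 hT0.le
      have h3 : T * (a * d) = a * T * d := by ring
      linarith
    · exact h.trans (hμd.trans had)
  set V : ℝ := (ν j : ℝ) with hV
  set A : Finset (Fin n) := univ.filter (fun i => ν j < w i) with hA
  set B : Finset (Fin n) := univ.filter (fun i => ν j < w i ∧ w i ≤ ν (j + 1)) with hB
  have e1 : 2 ^ 24 * (V + 1) / (ε / 4) ≤ C * V := by
    rw [div_le_iff₀ (by positivity)]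
    have : C * V * (ε / 4) = (C * ε) * V / 4 := by ring
    rw [this, hCε]
    linarith
  have e2 : 2 ^ 27 * (V + 1) / (ε / 4) ≤ 8 * (C * V) := by
    rw [div_le_iff₀ (by positivity)]
    have : 8 * (C * V) * (ε / 4) = 2 * ((C * ε) * V) := by ring
    rw [this, hCε]
    linarith
  have hCV : 1 ≤ C * V := by
    have : 1 * 1 ≤ C * V := mul_le_mul (by linarith) hν1r (by norm_num) hC0.le
    linarith
  -- the bound for one point
  have hone : ∀ i ∈ A, ((w i : ℝ) + C * V) ^ 2 ≤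
      (1 + ε / 8) ^ 2 * (w i : ℝ) ^ 2 + (if i ∈ B then (1 + C) ^ 2 * (w i : ℝ) ^ 2 else 0) := by
    intro i hi
    rw [hA, Finset.mem_filter] at hi
    have hwi : V < w i := by
      rw [hV]; exact_mod_cast hi.2
    by_cases hb : i ∈ B
    · rw [if_pos hb]
      have h1 : (w i : ℝ) + C * V ≤ (1 + C) * w i := by
        have := mul_le_mul_of_nonneg_left hwi.le hC0.le
        linarith
      have h2 : ((w i : ℝ) + C * V) ^ 2 ≤ ((1 + C) * w i) ^ 2 :=
        pow_le_pow_left₀ (by positivity) h1 2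
      have h3 : 0 ≤ (1 + ε / 8) ^ 2 * (w i : ℝ) ^ 2 := by positivity
      rw [mul_pow] at h2
      linarith
    · rw [if_neg hb, add_zero]
      have h0 : ν (j + 1) < w i := by
        by_contra h
        push Not at h
        apply hb
        rw [hB, Finset.mem_filter]
        exact ⟨Finset.mem_univ _, hi.2, h⟩
      have h1 : (K0 : ℝ) * V < w i := by
        have h2 : ν (j + 1) = K0 * ν j := by
          rw [hν]; simp only; ring
        rw [h2] at h0
        rw [hV]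
        exact_mod_cast h0
      have h2 : C * V ≤ ε / 8 * w i := by
        have h3 : 8 * C * V ≤ K0 * ε * V := mul_le_mul_of_nonneg_right hK0 (by positivity)
        have h4 : (K0 * V) * ε ≤ w i * ε := mul_le_mul_of_nonneg_right h1.le hε.le
        linarith
      have h5 : (w i : ℝ) + C * V ≤ (1 + ε / 8) * w i := by linarith
      have h6 : ((w i : ℝ) + C * V) ^ 2 ≤ ((1 + ε / 8) * w i) ^ 2 :=
        pow_le_pow_left₀ (by positivity) h5 2
      rw [mul_pow] at h6
      exact h6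
  have hBA : B ⊆ A := by
    intro i hi
    rw [hB, Finset.mem_filter] at hi
    rw [hA, Finset.mem_filter]
    exact ⟨hi.1, hi.2.1⟩
  have hAsum : ∑ i ∈ A, (w i : ℝ) ^ 2 ≤ (1 - ε) * (d : ℝ) ^ 2 := by
    refine le_trans ?_ hsum
    apply Finset.sum_le_sum_of_subset_of_nonneg
    · intro i hi
      rw [hA, Finset.mem_filter] at hi
      rw [Finset.mem_filter]
      refine ⟨hi.1, ?_⟩
      have h1 : ν 0 ≤ ν j := hνm (Nat.zero_le _)
      have h2 : ν 0 = ν0 := by rw [hν]; simp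
      have h3 : (ν0 : ℝ) < w i := by exact_mod_cast (by omega : ν0 < w i)
      linarith
    · intro i _ _
      positivity
  have htot : ∑ i ∈ A, ((w i : ℝ) + C * V) ^ 2 ≤ (1 - ε / 2) * (d : ℝ) ^ 2 := by
    have h1 := Finset.sum_le_sum hone
    rw [Finset.sum_add_distrib, ← Finset.mul_sum, Finset.sum_ite_mem,
      Finset.inter_eq_right.mpr hBA, ← Finset.mul_sum] at h1
    have h2 : (1 + ε / 8) ^ 2 * ∑ i ∈ A, (w i : ℝ) ^ 2 ≤
        (1 + ε / 8) ^ 2 * ((1 - ε) * (d : ℝ) ^ 2) := mul_le_mul_of_nonneg_left hAsum (by positivity)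
    have h3 : (1 + C) ^ 2 * ∑ i ∈ B, (w i : ℝ) ^ 2 ≤ (1 + C) ^ 2 * ((d : ℝ) ^ 2 / J) :=
      mul_le_mul_of_nonneg_left hband (by positivity)
    have hJ0 : (0 : ℝ) < J := by exact_mod_cast hJ1
    have h4 : (1 + C) ^ 2 * ((d : ℝ) ^ 2 / J) ≤ ε / 8 * (d : ℝ) ^ 2 := by
      have h5 : (1 + C) ^ 2 / J ≤ ε / 8 := by
        rw [div_le_iff₀ hJ0]
        linarith
      have h6 := mul_le_mul_of_nonneg_right h5 (by positivity : 0 ≤ (d : ℝ) ^ 2)
      have h7 : (1 + C) ^ 2 * ((d : ℝ) ^ 2 / J) = (1 + C) ^ 2 / J * (d : ℝ) ^ 2 := by ring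
      rw [h7]
      exact h6
    have h8 : (1 + ε / 8) ^ 2 * (1 - ε) ≤ 1 - 5 * ε / 8 := by
      have e1 : (1 + ε / 8) ^ 2 * (1 - ε) =
          1 - 3 * ε / 4 - ε ^ 2 * (15 / 64) - ε ^ 3 / 64 := by ring
      rw [e1]
      have : 0 ≤ ε ^ 2 := by positivity
      have : 0 ≤ ε ^ 3 := by positivity
      linarith
    have h9 := mul_le_mul_of_nonneg_right h8 (by positivity : 0 ≤ (d : ℝ) ^ 2)
    have h10 : (1 + ε / 8) ^ 2 * ((1 - ε) * (d : ℝ) ^ 2) =
        (1 + ε / 8) ^ 2 * (1 - ε) * (d : ℝ) ^ 2 := by ring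
    rw [h10] at h2
    have h11 : (1 - 5 * ε / 8) * (d : ℝ) ^ 2 + ε / 8 * (d : ℝ) ^ 2 = (1 - ε / 2) * (d : ℝ) ^ 2 := by ring
    rw [← h11]
    exact h1.trans (add_le_add (h2.trans h9) (h3.trans h4))
  -- the second inequality follows from the first
  have hww : ∀ A' : Finset (Fin n), ∑ i ∈ A', (w i : ℝ) * (w i + 1) ≤ ∑ i ∈ A', ((w i : ℝ) + C * V) ^ 2 := by
    intro A'
    apply Finset.sum_le_sum
    intro i _
    have h1 : (0 : ℝ) ≤ w i := Nat.cast_nonneg _
    have h2 : (w i : ℝ) * 1 ≤ w i * (2 * (C * V)) := mul_le_mul_of_nonneg_left (by linarith) h1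
    have h3 := sq_nonneg (C * V)
    have h4 : ((w i : ℝ) + C * V) ^ 2 = w i * w i + w i * (2 * (C * V)) + (C * V) ^ 2 := by ring
    have h5 : (w i : ℝ) * (w i + 1) = w i * w i + w i * 1 := by ring
    rw [h4, h5]
    linarith
  have hcompl : ∀ i, i ∉ A → w i ≤ ν j := by
    intro i hi
    by_contra h
    apply hi
    rw [hA, Finset.mem_filter]
    exact ⟨Finset.mem_univ _, by omega⟩
  have hd20 : 0 ≤ (d : ℝ) ^ 2 := by positivity
  -- the packing for a set `A'`
  have hfin : ∀ A' : Finset (Fin n), (∀ i ∉ A', w i ≤ ν j) → Un w (univ \ A') →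
      ∑ i ∈ A', ((w i : ℝ) + C * V) ^ 2 ≤ (1 - ε / 4) * (d : ℝ) ^ 2 →
      (∑ i ∈ A', ((w i : ℝ) + C * V) ^ 2 ≤ (1 - ε / 4 - ε / 8) * (d : ℝ) ^ 2) → PackG d w := by
    intro A' h1 h2 h3 h3'
    refine ⟨A', ε / 4, ⌊a ^ 2 * d⌋₊, ν j, by positivity, by linarith, hd1, ?_, h1, h2, ?_, (hww A').trans h3⟩
    · intro i _
      exact Nat.le_floor (hw i)
    · have g1 : ∑ i ∈ A', ((w i : ℝ) + 2 ^ 24 * (V + 1) / (ε / 4)) ^ 2 ≤
          ∑ i ∈ A', ((w i : ℝ) + C * V) ^ 2 := by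
        apply Finset.sum_le_sum
        intro i _
        apply pow_le_pow_left₀ (by positivity)
        linarith
      have g2 : ((⌊a ^ 2 * (d : ℝ)⌋₊ : ℕ) : ℝ) ≤ a ^ 2 * d := Nat.floor_le (by positivity)
      have g3 : (7 * ((⌊a ^ 2 * (d : ℝ)⌋₊ : ℕ) : ℝ) + 2 ^ 27 * (V + 1) / (ε / 4)) * d ≤
          (7 * (a ^ 2 * d) + 8 * (C * (a * T * d))) * d := by
        apply mul_le_mul_of_nonneg_right _ hd0.le
        have := mul_le_mul_of_nonneg_left hνd hC0.le
        linarith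
      have g4 : (7 * (a ^ 2 * d) + 8 * (C * (a * T * d))) * d =
          (7 * a ^ 2 + 8 * (a * (C * T))) * (d : ℝ) ^ 2 := by ring
      have g5 : 7 * a ^ 2 + 8 * (a * (C * T)) ≤ ε / 8 := by
        have : a * (128 * (C * T)) = 128 * (a * (C * T)) := by ring
        rw [this] at b4
        linarith
      have g6 := mul_le_mul_of_nonneg_right g5 hd20
      have g7 : 0 ≤ ε * (d : ℝ) ^ 2 := by positivity
      rw [g4] at g3
      have g8 := add_le_add (g1.trans h3') (g3.trans g6)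
      refine g8.trans ?_
      have g9 : (1 - ε / 4 - ε / 8) * (d : ℝ) ^ 2 + ε / 8 * (d : ℝ) ^ 2 = (d : ℝ) ^ 2 - ε * (d : ℝ) ^ 2 / 4 := by ring
      rw [g9]
      linarith
  have hslack : (1 - ε / 2) * (d : ℝ) ^ 2 ≤ (1 - ε / 4 - ε / 8) * (d : ℝ) ^ 2 :=
    mul_le_mul_of_nonneg_right (by linarith) hd20
  have hslack2 : (1 - ε / 2 + ε / 8) * (d : ℝ) ^ 2 ≤ (1 - ε / 4 - ε / 8) * (d : ℝ) ^ 2 :=
    mul_le_mul_of_nonneg_right (by linarith) hd20
  have hslack3 : (1 - ε / 4 - ε / 8) * (d : ℝ) ^ 2 ≤ (1 - ε / 4) * (d : ℝ) ^ 2 :=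
    mul_le_mul_of_nonneg_right (by linarith) hd20
  rcases hdich with hVT | hVμ
  · -- small values
    by_cases hbig : 2 ^ 29 * ν j ^ 3 ≤ ∑ i ∈ univ \ A, w i ^ 2
    · refine hfin A hcompl ?_ (htot.trans (hslack.trans hslack3)) (htot.trans hslack)
      refine ⟨fun _ => 0, fun i hi => ?_⟩
      rw [Finset.mem_sdiff] at hi
      have h1 : w i ≤ ν j := hcompl i hi.2
      have h2 : ((univ \ A).filter fun j' => (0 : ℕ) = 0 ∧ w j' ≠ 0).image w ⊆ Finset.Icc 1 (ν j) := by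
        intro x hx
        rw [Finset.mem_image] at hx
        obtain ⟨i', hi', rfl⟩ := hx
        rw [Finset.mem_filter, Finset.mem_sdiff] at hi'
        rw [Finset.mem_Icc]
        exact ⟨Nat.pos_of_ne_zero hi'.2.2, hcompl i' hi'.1.2⟩
      have h3 := Finset.card_le_card h2
      rw [Nat.card_Icc, Nat.add_sub_cancel] at h3
      have h4 : ∑ j' ∈ (univ \ A).filter (fun _ => (0 : ℕ) = 0), w j' ^ 2 = ∑ j' ∈ univ \ A, w j' ^ 2 := by
        congr 1
        exact Finset.filter_true_of_mem fun _ _ => rfl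
      calc 2 ^ 29 * w i ^ 2 * (((univ \ A).filter fun j' => (0 : ℕ) = 0 ∧ w j' ≠ 0).image w).card ≤
          2 ^ 29 * ν j ^ 2 * ν j := by gcongr
        _ = 2 ^ 29 * ν j ^ 3 := by ring
        _ ≤ ∑ j' ∈ univ \ A, w j' ^ 2 := hbig
        _ = _ := h4.symm
    · push Not at hbig
      set A' : Finset (Fin n) := univ.filter (fun i => w i ≠ 0) with hA'
      have hsplit : ∑ i ∈ A', ((w i : ℝ) + C * V) ^ 2 ≤ (1 - ε / 2 + ε / 8) * (d : ℝ) ^ 2 := by
        have hAA : A ⊆ A' := by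
          intro i hi
          rw [hA, Finset.mem_filter] at hi
          rw [hA', Finset.mem_filter]
          exact ⟨hi.1, by omega⟩
        rw [← Finset.sum_sdiff hAA]
        have h1 : ∑ i ∈ A' \ A, ((w i : ℝ) + C * V) ^ 2 ≤ ∑ i ∈ A' \ A, (1 + C * V) ^ 2 * (w i : ℝ) ^ 2 := by
          apply Finset.sum_le_sum
          intro i hi
          rw [Finset.mem_sdiff, hA', Finset.mem_filter] at hi
          have h2 : (1 : ℝ) ≤ w i := by exact_mod_cast Nat.pos_of_ne_zero hi.1.2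
          have h3 : (w i : ℝ) + C * V ≤ (1 + C * V) * w i := by
            have h5 : C * V * 1 ≤ C * V * w i := mul_le_mul_of_nonneg_left h2 (by linarith)
            have h6 : (1 + C * V) * (w i : ℝ) = w i + C * V * w i := by ring
            rw [h6]
            linarith
          have h4 := pow_le_pow_left₀ (by positivity) h3 2
          rwa [mul_pow] at h4
        have h2 : ∑ i ∈ A' \ A, (w i : ℝ) ^ 2 ≤ 2 ^ 29 * V ^ 3 := by
          have h3 : ∑ i ∈ A' \ A, w i ^ 2 ≤ ∑ i ∈ univ \ A, w i ^ 2 := by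
            apply Finset.sum_le_sum_of_subset
            exact Finset.sdiff_subset_sdiff (Finset.subset_univ _) (Finset.Subset.refl _)
          have h4 : ∑ i ∈ A' \ A, w i ^ 2 ≤ 2 ^ 29 * ν j ^ 3 := h3.trans hbig.le
          have h5 : ((∑ i ∈ A' \ A, w i ^ 2 : ℕ) : ℝ) ≤ ((2 ^ 29 * ν j ^ 3 : ℕ) : ℝ) := by exact_mod_cast h4
          rw [Nat.cast_sum, Nat.cast_mul, Nat.cast_pow (ν j)] at h5
          refine le_trans (le_of_eq ?_) (h5.trans (le_of_eq ?_))
          · exact Finset.sum_congr rfl fun i _ => by rw [Nat.cast_pow]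
          · rw [hV]; norm_num
        have h3 : ∑ i ∈ A' \ A, (1 + C * V) ^ 2 * (w i : ℝ) ^ 2 ≤ (1 + C * T) ^ 2 * (2 ^ 29 * T ^ 3) := by
          rw [← Finset.mul_sum]
          have h4 : (1 + C * V) ^ 2 ≤ (1 + C * T) ^ 2 := by
            apply pow_le_pow_left₀ (by positivity)
            have := mul_le_mul_of_nonneg_left hVT hC0.le
            linarith
          have h5 : 2 ^ 29 * V ^ 3 ≤ 2 ^ 29 * T ^ 3 := by
            have := pow_le_pow_left₀ (by positivity) hVT 3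
            linarith
          exact mul_le_mul h4 (h2.trans h5) (Finset.sum_nonneg fun i _ => by positivity) (by positivity)
        have h4 : 1 ≤ (a ^ 2 * (d : ℝ)) ^ 2 := one_le_pow₀ hcd
        have h5 : (1 + C * T) ^ 2 * (2 ^ 29 * T ^ 3) ≤ ε / 8 * (d : ℝ) ^ 2 := by
          have h6 : (1 + C * T) ^ 2 * (2 ^ 29 * T ^ 3) * 1 ≤
              (1 + C * T) ^ 2 * (2 ^ 29 * T ^ 3) * (a ^ 2 * (d : ℝ)) ^ 2 :=
            mul_le_mul_of_nonneg_left h4 (by positivity)
          have h7 : (1 + C * T) ^ 2 * (2 ^ 29 * T ^ 3) * (a ^ 2 * (d : ℝ)) ^ 2 =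
              2 ^ 29 * (a ^ 4 * ((1 + C * T) ^ 2 * T ^ 3)) * (d : ℝ) ^ 2 := by ring
          have h8 : a ^ 4 ≤ a := by
            have : a ^ 4 ≤ a ^ 1 := pow_le_pow_of_le_one ha0.le ha1 (by norm_num)
            simpa using this
          have h9 : a ^ 4 * ((1 + C * T) ^ 2 * T ^ 3) ≤ a * ((1 + C * T) ^ 2 * T ^ 3) :=
            mul_le_mul_of_nonneg_right h8 (by positivity)
          have h10 : a * (2 ^ 33 * ((1 + C * T) ^ 2 * T ^ 3)) = 2 ^ 33 * (a * ((1 + C * T) ^ 2 * T ^ 3)) := by ring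
          have h11 : 2 ^ 29 * (a ^ 4 * ((1 + C * T) ^ 2 * T ^ 3)) ≤ ε / 8 := by
            rw [h10] at b3
            linarith
          have h12 := mul_le_mul_of_nonneg_right h11 hd20
          linarith
        have h6 : (1 - ε / 2 + ε / 8) * (d : ℝ) ^ 2 = ε / 8 * (d : ℝ) ^ 2 + (1 - ε / 2) * (d : ℝ) ^ 2 := by ring
        rw [h6]
        exact add_le_add (h1.trans (h3.trans h5)) htot
      refine hfin A' ?_ ?_ (hsplit.trans (hslack2.trans hslack3)) (hsplit.trans hslack2)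
      · intro i hi
        have : w i = 0 := by
          by_contra h
          exact hi (by rw [hA', Finset.mem_filter]; exact ⟨Finset.mem_univ _, h⟩)
        omega
      · refine ⟨fun _ => 0, fun i hi => ?_⟩
        have : w i = 0 := by
          rw [Finset.mem_sdiff, hA', Finset.mem_filter] at hi
          by_contra h
          exact hi.2 ⟨Finset.mem_univ _, h⟩
        rw [this]
        simp
  · -- repeated values
    refine hfin A hcompl ?_ (htot.trans (hslack.trans hslack3)) (htot.trans hslack)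
    apply hRU
    intro i hi hi0
    rw [Finset.mem_sdiff] at hi
    have h1 : w i ≤ ν j := hcompl i hi.2
    have h2 : (w i : ℝ) ≤ μ := by
      have : (w i : ℝ) ≤ V := by rw [hV]; exact_mod_cast h1
      linarith
    refine (hrep i hi0 h2).trans (Finset.card_le_card ?_)
    intro k hk
    rw [Finset.mem_filter] at hk ⊢
    refine ⟨?_, hk.2⟩
    rw [Finset.mem_sdiff]
    refine ⟨Finset.mem_univ _, ?_⟩
    rw [hA, Finset.mem_filter]
    rintro ⟨-, h⟩
    omega

end Pool.Agent.Q184.GR
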